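import Pool.Agent.Y751.DH.Eq3

set_option autoImplicit false

/-!
# Transfer of density bounds between two counting functions over unit windows
-/

open Set Filter Topology

namespace Pool.Agent.Y853.DZ

def Dens (w : ℝ → ℕ → ℕ) (φ : ℝ → ℝ) : Prop :=
  ∀ ε : ℝ, 0 < ε → ∃ C : ℝ, 0 < C ∧ ∃ T₀ : ℝ, ∀ T : ℝ, T₀ ≤ T → ∀ σ : ℝ, 1 / 2 ≤ σ → σ ≤ 1 →
    ((∑ n ∈ Finset.range ⌊T⌋₊, w σ n : ℕ) : ℝ) ≤ C * T ^ (φ σ + ε)

def Clus (w : ℝ → ℕ → ℕ) (φ : ℝ → ℝ) : Prop :=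
  ∀ ε : ℝ, 0 < ε → ∀ η : ℝ, 0 < η → ∃ C : ℝ, 0 < C ∧ ∃ T₀ : ℝ, ∀ T : ℝ, T₀ ≤ T →
    ∀ σ : ℝ, 1 / 2 ≤ σ → σ ≤ 1 →
      (((Finset.range ⌊T⌋₊).filter (fun n : ℕ => η * Real.log T ≤ w σ n)).card : ℝ) ≤
        C * T ^ (φ σ + ε)

def Triv (w : ℝ → ℕ → ℕ) : Prop := ∃ K : ℝ, 0 < K ∧ ∀ σ : ℝ, 1 / 2 ≤ σ → σ ≤ 1 → ∀ n : ℕ,
  (w σ n : ℝ) ≤ K * Real.log (n + 2)

def T1 (w v : ℝ → ℕ → ℕ) : Prop := ∀ δ : ℝ, 0 < δ → ∃ W : ℕ, ∀ σ : ℝ, 1 / 2 + δ ≤ σ → σ ≤ 1 →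
  ∀ n : ℕ, W ≤ n → 0 < w σ n → ∃ m : ℕ, n ≤ m + W ∧ m ≤ n + W ∧ 0 < v (σ - δ) m

def T2 (w v : ℝ → ℕ → ℕ) : Prop := ∀ δ : ℝ, 0 < δ → ∀ η : ℝ, 0 < η → ∃ η' : ℝ, 0 < η' ∧ ∃ W : ℕ,
  ∀ σ : ℝ, 1 / 2 + δ ≤ σ → σ ≤ 1 → ∀ n : ℕ, W ≤ n → η * Real.log n ≤ w σ n →
    ∃ m : ℕ, n ≤ m + W ∧ m ≤ n + W ∧ η' * Real.log n ≤ v (σ - δ) m

theorem card_shift {A B : Finset ℕ} {W n0 : ℕ}
    (h : ∀ n ∈ A, n0 ≤ n → ∃ m ∈ B, n ≤ m + W ∧ m ≤ n + W) :
    A.card ≤ n0 + (2 * W + 1) * B.card := by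
  classical
  have hsub : A ⊆ Finset.range n0 ∪ B.biUnion (fun m => Finset.Icc (m - W) (m + W)) := by
    intro n hn
    rw [Finset.mem_union, Finset.mem_range]
    rcases lt_or_ge n n0 with h1 | h1
    · exact Or.inl h1
    · obtain ⟨m, hm, h2, h3⟩ := h n hn h1
      right
      rw [Finset.mem_biUnion]
      refine ⟨m, hm, ?_⟩
      rw [Finset.mem_Icc]
      omega
  refine (Finset.card_le_card hsub).trans ((Finset.card_union_le _ _).trans ?_)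
  rw [Finset.card_range]
  gcongr
  refine (Finset.card_biUnion_le).trans ?_
  rw [mul_comm, ← smul_eq_mul]
  refine Finset.sum_le_card_nsmul _ _ _ fun m hm => ?_
  rw [Nat.card_Icc]
  omega

theorem two_pow_le {φ : ℝ → ℝ} {M T e : ℝ} {σ σ' : ℝ} (hT : 1 ≤ T) (hM : φ σ' ≤ M) (h : |φ σ' - φ σ| < e)
    (he : e ≤ 1) (he0 : 0 < e) {X : ℝ} (hX : 0 ≤ X) (hXT : X ≤ 2 * T) (h0 : 0 ≤ φ σ') :
    X ^ (φ σ' + e) ≤ (2 : ℝ) ^ (M + 1) * T ^ (φ σ + 2 * e) := by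
  have h1 := (abs_lt.1 h).2
  calc X ^ (φ σ' + e) ≤ (2 * T) ^ (φ σ' + e) := Real.rpow_le_rpow hX hXT (by linarith)
    _ = (2 : ℝ) ^ (φ σ' + e) * T ^ (φ σ' + e) := Real.mul_rpow (by norm_num) (by linarith)
    _ ≤ (2 : ℝ) ^ (M + 1) * T ^ (φ σ + 2 * e) := by
        apply mul_le_mul
        · exact Real.rpow_le_rpow_of_exponent_le (by norm_num) (by linarith)
        · exact Real.rpow_le_rpow_of_exponent_le hT (by linarith)
        · positivity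
        · positivity

theorem phi_bdd {φ : ℝ → ℝ} (hc : ContinuousOn φ (Icc (1 / 2) 1)) :
    ∃ M : ℝ, 0 < M ∧ ∀ x ∈ Icc (1 / 2 : ℝ) 1, φ x ≤ M := by
  obtain ⟨M, hM⟩ := (isCompact_Icc.image_of_continuousOn hc).bddAbove
  exact ⟨max M 1, by positivity, fun x hx => (hM ⟨x, hx, rfl⟩).trans (le_max_left _ _)⟩

theorem dens_of {w v : ℝ → ℕ → ℕ} (ht : Triv w) (h1 : T1 w v) {φ : ℝ → ℝ}
    (hc : ContinuousOn φ (Icc (1 / 2) 1)) (h0 : ∀ σ ∈ Icc (1 / 2 : ℝ) 1, 0 ≤ φ σ)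
    (hh : 1 ≤ φ (1 / 2)) (hd : Dens v φ) : Dens w φ := by
  intro ε0 hε0
  obtain ⟨ε, hε, hεε, hε1⟩ : ∃ ε : ℝ, 0 < ε ∧ 4 * ε ≤ ε0 ∧ ε ≤ 1 :=
    ⟨min (ε0 / 4) 1, by positivity, by have := min_le_left (ε0 / 4) 1; linarith, min_le_right _ _⟩
  obtain ⟨M, hM0, hM⟩ := phi_bdd hc
  obtain ⟨δ0, hδ0, hunif⟩ := Y751.DH.unif hc hε
  obtain ⟨δ, hδ, hδδ, hδ2⟩ : ∃ δ : ℝ, 0 < δ ∧ δ < δ0 ∧ δ ≤ 1 / 2 :=
    ⟨min (δ0 / 2) (1 / 2), by positivity, by have := min_le_left (δ0 / 2) (1 / 2); linarith,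
      min_le_right _ _⟩
  obtain ⟨K, hK, ht⟩ := ht
  obtain ⟨W, hW⟩ := h1 δ hδ
  obtain ⟨C, hC, T₀, hd⟩ := hd ε hε
  obtain ⟨T1, hT1⟩ := eventually_atTop.1 (Y751.DH.ev_pow 2 1 hε)
  refine ⟨K * (1 + (W + (2 * W + 1) * (C * (2 : ℝ) ^ (M + 1)))), by positivity,
    max (max T₀ T1) (W + 3), fun T hT σ hσ1 hσ2 => ?_⟩
  have hT0 : T₀ ≤ T := ((le_max_left _ _).trans (le_max_left _ _)).trans hT
  have hTT1 : T1 ≤ T := ((le_max_right _ _).trans (le_max_left _ _)).trans hT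
  have hTW : (W : ℝ) + 3 ≤ T := (le_max_right _ _).trans hT
  have hW0 : (0 : ℝ) ≤ W := Nat.cast_nonneg W
  have hT3 : 3 ≤ T := by linarith
  have hTpos : 0 < T := by linarith
  have hlog : Real.log (T + 2) ≤ T ^ ε := by
    have h2 := hT1 T hTT1
    have h3 : Real.log (T + 2) ≤ Real.log (2 * T) := Real.log_le_log (by linarith) (by linarith)
    have h4 := Y751.DH.log_two_mul (T := T) (by linarith)
    rw [pow_one] at h2
    linarith
  have hlog0 : 0 ≤ Real.log (T + 2) := Real.log_nonneg (by linarith)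
  have hTe1 : 1 ≤ T ^ ε := Real.one_le_rpow (by linarith) hε.le
  have hfl : ((⌊T⌋₊ : ℕ) : ℝ) ≤ T := Nat.floor_le (by linarith)
  have hwn : ∀ n ∈ Finset.range ⌊T⌋₊, (w σ n : ℝ) ≤ K * T ^ ε := by
    intro n hn
    rw [Finset.mem_range] at hn
    have hn' : (n : ℝ) ≤ T := by
      have : (n : ℝ) ≤ (⌊T⌋₊ : ℕ) := by exact_mod_cast hn.le
      linarith
    refine (ht σ hσ1 hσ2 n).trans ?_
    have : Real.log ((n : ℝ) + 2) ≤ Real.log (T + 2) :=
      Real.log_le_log (by positivity) (by linarith)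
    exact mul_le_mul_of_nonneg_left (this.trans hlog) hK.le
  have hσm : σ ∈ Icc (1 / 2 : ℝ) 1 := ⟨hσ1, hσ2⟩
  rcases lt_or_ge σ (1 / 2 + δ) with hs | hs
  · -- near 1/2
    have h2 : 1 ≤ φ σ + ε := by
      have h3 := hunif σ hσm (1 / 2) ⟨le_rfl, by norm_num⟩ (by
        rw [abs_of_nonneg (by linarith)]; linarith)
      have := (abs_lt.1 h3).1
      linarith
    push_cast
    calc ∑ n ∈ Finset.range ⌊T⌋₊, (w σ n : ℝ) ≤ ∑ n ∈ Finset.range ⌊T⌋₊, K * T ^ ε :=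
          Finset.sum_le_sum hwn
      _ = (⌊T⌋₊ : ℕ) * (K * T ^ ε) := by rw [Finset.sum_const, Finset.card_range, nsmul_eq_mul]
      _ ≤ T * (K * T ^ ε) := by gcongr
      _ = K * (T ^ (1 : ℝ) * T ^ ε) := by rw [Real.rpow_one]; ring
      _ = K * T ^ (1 + ε) := by rw [Real.rpow_add hTpos]
      _ ≤ K * T ^ (φ σ + ε0) := mul_le_mul_of_nonneg_left
          (Real.rpow_le_rpow_of_exponent_le (by linarith) (by linarith)) hK.le
      _ ≤ _ := by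
          gcongr
          have : 0 ≤ K * (W + (2 * W + 1) * (C * (2 : ℝ) ^ (M + 1))) := by positivity
          linarith
  · -- away from 1/2
    classical
    set A := (Finset.range ⌊T⌋₊).filter (fun n => 0 < w σ n) with hA
    set B := (Finset.range ⌊T + W + 1⌋₊).filter (fun m => 0 < v (σ - δ) m) with hB
    have hcard : A.card ≤ W + (2 * W + 1) * B.card := by
      apply card_shift
      intro n hn hWn
      rw [hA, Finset.mem_filter, Finset.mem_range] at hn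
      obtain ⟨m, hm1, hm2, hm3⟩ := hW σ hs hσ2 n hWn hn.2
      refine ⟨m, ?_, hm1, hm2⟩
      rw [hB, Finset.mem_filter, Finset.mem_range]
      refine ⟨?_, hm3⟩
      rw [← Nat.add_one_le_iff, Nat.le_floor_iff (by positivity)]
      have : (n : ℝ) + 1 ≤ (⌊T⌋₊ : ℕ) := by exact_mod_cast hn.1
      have h3 : (m : ℝ) ≤ n + W := by exact_mod_cast hm2
      push_cast
      linarith
    have hσ' : σ - δ ∈ Icc (1 / 2 : ℝ) 1 := ⟨by linarith, by linarith⟩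
    have hBc : (B.card : ℝ) ≤ C * (T + W + 1) ^ (φ (σ - δ) + ε) := by
      refine le_trans ?_ (hd (T + W + 1) (by linarith) (σ - δ) hσ'.1 hσ'.2)
      rw [Nat.cast_le, Finset.card_eq_sum_ones]
      have h9 : ∑ m ∈ B, v (σ - δ) m ≤ ∑ m ∈ Finset.range ⌊T + W + 1⌋₊, v (σ - δ) m :=
        Finset.sum_le_sum_of_subset (by rw [hB]; exact Finset.filter_subset _ _)
      refine le_trans (Finset.sum_le_sum fun m hm => ?_) h9
      exact (Finset.mem_filter.1 hm).2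
    have h2 : (T + W + 1) ^ (φ (σ - δ) + ε) ≤ (2 : ℝ) ^ (M + 1) * T ^ (φ σ + 2 * ε) :=
      two_pow_le (by linarith) (hM _ hσ') (hunif _ hσ' _ hσm (by
        rw [abs_of_nonpos (by linarith)]; linarith)) hε1 hε (by positivity) (by linarith)
        (h0 _ hσ')
    have hX1 : 1 ≤ T ^ (φ σ + 2 * ε) := by
      apply Real.one_le_rpow (by linarith)
      have := h0 σ hσm
      linarith
    have h3 : ((∑ n ∈ Finset.range ⌊T⌋₊, w σ n : ℕ) : ℝ) ≤ A.card * (K * T ^ ε) := by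
      have h4 : ∑ n ∈ Finset.range ⌊T⌋₊, w σ n = ∑ n ∈ A, w σ n := by
        rw [hA, Finset.sum_filter]
        refine Finset.sum_congr rfl fun n _ => ?_
        split_ifs with h5
        · rfl
        · omega
      rw [h4, ← nsmul_eq_mul]
      push_cast
      exact Finset.sum_le_card_nsmul _ _ _ fun n hn => hwn n (Finset.filter_subset _ _ hn)
    have hcard' : (A.card : ℝ) ≤ W + (2 * W + 1) * B.card := by exact_mod_cast hcard
    have h5 : (A.card : ℝ) ≤ (W + (2 * W + 1) * (C * (2 : ℝ) ^ (M + 1))) * T ^ (φ σ + 2 * ε) := by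
      calc (A.card : ℝ) ≤ W + (2 * W + 1) * B.card := hcard'
        _ ≤ W * T ^ (φ σ + 2 * ε) + (2 * W + 1) * (C * ((2 : ℝ) ^ (M + 1) * T ^ (φ σ + 2 * ε))) := by
            gcongr
            · nlinarith
            · exact hBc.trans (mul_le_mul_of_nonneg_left h2 hC.le)
        _ = _ := by ring
    calc ((∑ n ∈ Finset.range ⌊T⌋₊, w σ n : ℕ) : ℝ) ≤ A.card * (K * T ^ ε) := h3
      _ ≤ ((W + (2 * W + 1) * (C * (2 : ℝ) ^ (M + 1))) * T ^ (φ σ + 2 * ε)) * (K * T ^ ε) := by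
          gcongr
      _ = K * (W + (2 * W + 1) * (C * (2 : ℝ) ^ (M + 1))) * (T ^ (φ σ + 2 * ε) * T ^ ε) := by ring
      _ = K * (W + (2 * W + 1) * (C * (2 : ℝ) ^ (M + 1))) * T ^ (φ σ + 3 * ε) := by
          rw [← Real.rpow_add hTpos]; ring_nf
      _ ≤ K * (W + (2 * W + 1) * (C * (2 : ℝ) ^ (M + 1))) * T ^ (φ σ + ε0) :=
          mul_le_mul_of_nonneg_left
            (Real.rpow_le_rpow_of_exponent_le (by linarith) (by linarith)) (by positivity)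
      _ ≤ _ := mul_le_mul_of_nonneg_right (by nlinarith) (by positivity)

theorem clus_of {w v : ℝ → ℕ → ℕ} (h1 : T2 w v) {φ : ℝ → ℝ}
    (hc : ContinuousOn φ (Icc (1 / 2) 1)) (h0 : ∀ σ ∈ Icc (1 / 2 : ℝ) 1, 0 ≤ φ σ)
    (hh : 1 ≤ φ (1 / 2)) (hd : Clus v φ) : Clus w φ := by
  intro ε0 hε0 η hη
  obtain ⟨ε, hε, hεε, hε1⟩ : ∃ ε : ℝ, 0 < ε ∧ 4 * ε ≤ ε0 ∧ ε ≤ 1 :=
    ⟨min (ε0 / 4) 1, by positivity, by have := min_le_left (ε0 / 4) 1; linarith, min_le_right _ _⟩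
  obtain ⟨M, hM0, hM⟩ := phi_bdd hc
  obtain ⟨δ0, hδ0, hunif⟩ := Y751.DH.unif hc hε
  obtain ⟨δ, hδ, hδδ, hδ2⟩ : ∃ δ : ℝ, 0 < δ ∧ δ < δ0 ∧ δ ≤ 1 / 2 :=
    ⟨min (δ0 / 2) (1 / 2), by positivity, by have := min_le_left (δ0 / 2) (1 / 2); linarith,
      min_le_right _ _⟩
  obtain ⟨η', hη', W, hW⟩ := h1 δ hδ η hη
  obtain ⟨C, hC, T₀, hd⟩ := hd ε hε (η' * ε / 2) (by positivity)
  refine ⟨1 + (W + 2 + (2 * W + 1) * (C * (2 : ℝ) ^ (M + 1))), by positivity,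
    max T₀ (W + 3), fun T hT σ hσ1 hσ2 => ?_⟩
  have hT0 : T₀ ≤ T := (le_max_left _ _).trans hT
  have hTW : (W : ℝ) + 3 ≤ T := (le_max_right _ _).trans hT
  have hW0 : (0 : ℝ) ≤ W := Nat.cast_nonneg W
  have hT3 : 3 ≤ T := by linarith
  have hTpos : 0 < T := by linarith
  have hfl : ((⌊T⌋₊ : ℕ) : ℝ) ≤ T := Nat.floor_le (by linarith)
  have hσm : σ ∈ Icc (1 / 2 : ℝ) 1 := ⟨hσ1, hσ2⟩
  have hlT : 0 < Real.log T := Real.log_pos (by linarith)
  set A := (Finset.range ⌊T⌋₊).filter (fun n : ℕ => η * Real.log T ≤ w σ n) with hA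
  rcases lt_or_ge σ (1 / 2 + δ) with hs | hs
  · have h2 : 1 ≤ φ σ + ε := by
      have h3 := hunif σ hσm (1 / 2) ⟨le_rfl, by norm_num⟩ (by
        rw [abs_of_nonneg (by linarith)]; linarith)
      have := (abs_lt.1 h3).1
      linarith
    have h3 : (A.card : ℝ) ≤ (⌊T⌋₊ : ℕ) := by
      rw [Nat.cast_le]
      refine (Finset.card_le_card (Finset.filter_subset _ _)).trans ?_
      rw [Finset.card_range]
    calc (A.card : ℝ) ≤ T := h3.trans hfl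
      _ = 1 * T ^ (1 : ℝ) := by rw [Real.rpow_one, one_mul]
      _ ≤ 1 * T ^ (φ σ + ε0) := by
          gcongr
          · linarith
          · linarith
      _ ≤ _ := by
          gcongr
          have : 0 ≤ (W + 2 + (2 * W + 1) * (C * (2 : ℝ) ^ (M + 1))) := by positivity
          linarith
  · set n0 : ℕ := max W ⌈T ^ ε⌉₊ with hn0
    set B := (Finset.range ⌊T + W + 1⌋₊).filter
      (fun m => (η' * ε / 2) * Real.log (T + W + 1) ≤ v (σ - δ) m) with hB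
    have hT2 : Real.log (T + W + 1) ≤ 2 * Real.log T :=
      (Real.log_le_log (by positivity) (by linarith)).trans (Y751.DH.log_two_mul (T := T) (by linarith))
    have hcard : A.card ≤ n0 + (2 * W + 1) * B.card := by
      apply card_shift
      intro n hn hWn
      rw [hA, Finset.mem_filter, Finset.mem_range] at hn
      have hnW : W ≤ n := (le_max_left _ _).trans hWn
      have hnT : T ^ ε ≤ n := (Nat.le_ceil _).trans (by exact_mod_cast (le_max_right _ _).trans hWn)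
      have hTe1 : 1 ≤ T ^ ε := Real.one_le_rpow (by linarith) hε.le
      have hn1 : (n : ℝ) + 1 ≤ (⌊T⌋₊ : ℕ) := by exact_mod_cast hn.1
      have hlogn : Real.log n ≤ Real.log T := Real.log_le_log (by linarith) (by linarith)
      obtain ⟨m, hm1, hm2, hm3⟩ := hW σ hs hσ2 n hnW (le_trans
        (mul_le_mul_of_nonneg_left hlogn hη.le) hn.2)
      refine ⟨m, ?_, hm1, hm2⟩
      rw [hB, Finset.mem_filter, Finset.mem_range]
      constructor
      · rw [← Nat.add_one_le_iff, Nat.le_floor_iff (by positivity)]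
        have h3 : (m : ℝ) ≤ n + W := by exact_mod_cast hm2
        push_cast
        linarith
      · refine le_trans ?_ hm3
        have h4 : ε * Real.log T ≤ Real.log n := by
          rw [← Real.log_rpow hTpos]
          exact Real.log_le_log (by positivity) hnT
        calc (η' * ε / 2) * Real.log (T + W + 1) ≤ (η' * ε / 2) * (2 * Real.log T) := by gcongr
          _ = η' * (ε * Real.log T) := by ring
          _ ≤ η' * Real.log n := by gcongr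
    have hσ' : σ - δ ∈ Icc (1 / 2 : ℝ) 1 := ⟨by linarith, by linarith⟩
    have hBc : (B.card : ℝ) ≤ C * (T + W + 1) ^ (φ (σ - δ) + ε) :=
      hd (T + W + 1) (by linarith) (σ - δ) hσ'.1 hσ'.2
    have h2 : (T + W + 1) ^ (φ (σ - δ) + ε) ≤ (2 : ℝ) ^ (M + 1) * T ^ (φ σ + 2 * ε) :=
      two_pow_le (by linarith) (hM _ hσ') (hunif _ hσ' _ hσm (by
        rw [abs_of_nonpos (by linarith)]; linarith)) hε1 hε (by positivity) (by linarith)
        (h0 _ hσ')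
    have hφ0 := h0 σ hσm
    have hX0 : T ^ ε ≤ T ^ (φ σ + 2 * ε) :=
      Real.rpow_le_rpow_of_exponent_le (by linarith) (by linarith)
    have hX1 : 1 ≤ T ^ (φ σ + 2 * ε) := Real.one_le_rpow (by linarith) (by linarith)
    have hn0' : (n0 : ℝ) ≤ (W + 2) * T ^ (φ σ + 2 * ε) := by
      have h6 : (n0 : ℝ) ≤ W + (T ^ ε + 1) := by
        rw [hn0]
        push_cast
        have h7 := (Nat.ceil_lt_add_one (show 0 ≤ T ^ ε by positivity)).le
        refine max_le ?_ ?_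
        · have : 0 ≤ T ^ ε := by positivity
          linarith
        · linarith
      nlinarith
    have hcard' : (A.card : ℝ) ≤ n0 + (2 * W + 1) * B.card := by exact_mod_cast hcard
    calc (A.card : ℝ) ≤ n0 + (2 * W + 1) * B.card := hcard'
      _ ≤ (W + 2) * T ^ (φ σ + 2 * ε) +
          (2 * W + 1) * (C * ((2 : ℝ) ^ (M + 1) * T ^ (φ σ + 2 * ε))) := by
            gcongr
            exact hBc.trans (mul_le_mul_of_nonneg_left h2 hC.le)
      _ = (W + 2 + (2 * W + 1) * (C * (2 : ℝ) ^ (M + 1))) * T ^ (φ σ + 2 * ε) := by ring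
      _ ≤ (W + 2 + (2 * W + 1) * (C * (2 : ℝ) ^ (M + 1))) * T ^ (φ σ + ε0) :=
          mul_le_mul_of_nonneg_left
            (Real.rpow_le_rpow_of_exponent_le (by linarith) (by linarith)) (by positivity)
      _ ≤ _ := mul_le_mul_of_nonneg_right (by nlinarith) (by positivity)

end Pool.Agent.Y853.DZ
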