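import Pool.Agent.Y853.DZ.Left

set_option autoImplicit false

/-!
# Zero density read off the zeros to the left of the line
-/

open Complex Set Filter Topology Polynomial
open Pool.Agent.Y853.SP (FF Tame FF_an)

namespace Pool.Agent.Y853.DZ

/-- the window counts of zeta, to the right -/
noncomputable def wR (σ : ℝ) (n : ℕ) : ℕ := Y751.DH.N σ n (n + 1)

theorem zeta_FF : (FF 1 (fun _ => 0) : ℂ → ℂ) = riemannZeta := funext fun s => SP.one_FF s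

theorem one_ne' : (1 : ℂ[X]) ≠ 0 := one_ne_zero

theorem refl_zero {s : ℂ} (hs : s.im ≠ 0) (h : riemannZeta s = 0) :
    riemannZeta (1 - (starRingEnd ℂ) s) = 0 := by
  have him' : (1 - (starRingEnd ℂ) s).im = s.im := by simp
  rw [← Y21.FW.mult_pos_iff (Y21.FW.ne_one (by rw [him']; exact hs)), Y21.FW.mult_symm hs,
    Y21.FW.mult_pos_iff (Y21.FW.ne_one hs)]
  exact h

theorem refl_inj : Function.Injective (fun s : ℂ => 1 - (starRingEnd ℂ) s) := by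
  intro a b h
  have h1 : (starRingEnd ℂ) a = (starRingEnd ℂ) b := by
    have h2 : 1 - (starRingEnd ℂ) a = 1 - (starRingEnd ℂ) b := h
    linear_combination -h2
  exact (starRingEnd ℂ).injective h1

theorem left_le_right {σ a b : ℝ} (hσ : 1 / 2 ≤ σ) (ha : 0 ≤ a) :
    L riemannZeta σ a b ≤ Y751.DH.N σ a b := by
  classical
  have hfin : (ls riemannZeta σ a b).Finite := by
    have := ls_fin one_ne' SP.tame_zero (σ := σ) (a := a) (b := b) hσ ha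
    rwa [zeta_FF] at this
  rw [L_eq hfin, Y751.DH.N_eq]
  have h1 : ∑ s ∈ hfin.toFinset, analyticOrderNatAt riemannZeta s =
      ∑ s ∈ hfin.toFinset.image (fun s : ℂ => 1 - (starRingEnd ℂ) s), analyticOrderNatAt riemannZeta s := by
    rw [Finset.sum_image fun x _ y _ h => refl_inj h]
    refine Finset.sum_congr rfl fun s hs => ?_
    rw [Set.Finite.mem_toFinset] at hs
    exact (Y21.FW.mult_symm (by linarith [hs.2.2.2.1] : s.im ≠ 0)).symm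
  rw [h1]
  refine DH31.sum_le_cnt (Y751.DH.zs_finite _ _ _) _ fun z hz => ?_
  rw [Finset.mem_image] at hz
  obtain ⟨s, hs, rfl⟩ := hz
  rw [Set.Finite.mem_toFinset] at hs
  obtain ⟨h2, h3, h4, h5, h6⟩ := hs
  refine ⟨refl_zero (by linarith) h2, ?_, ?_, ?_⟩
  · simp only [sub_re, one_re, conj_re]; linarith
  · simpa using h5
  · simpa using h6

theorem right_le_left {σ σ' a b : ℝ} (hσ : 1 / 2 ≤ σ') (hσσ : σ' < σ) (ha : 0 ≤ a) :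
    Y751.DH.N σ a b ≤ L riemannZeta σ' a b := by
  classical
  have hfin : (ls riemannZeta σ' a b).Finite := by
    have := ls_fin one_ne' SP.tame_zero (σ := σ') (a := a) (b := b) hσ ha
    rwa [zeta_FF] at this
  rw [Y751.DH.N_eq, DH31.cnt_eq (Y751.DH.zs_finite _ _ _)]
  have h1 : ∑ s ∈ (Y751.DH.zs_finite σ a b).toFinset, analyticOrderNatAt riemannZeta s =
      ∑ s ∈ (Y751.DH.zs_finite σ a b).toFinset.image (fun s : ℂ => 1 - (starRingEnd ℂ) s),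
        analyticOrderNatAt riemannZeta s := by
    rw [Finset.sum_image fun x _ y _ h => refl_inj h]
    refine Finset.sum_congr rfl fun s hs => ?_
    rw [Set.Finite.mem_toFinset] at hs
    exact (Y21.FW.mult_symm (by linarith [hs.2.2.1] : s.im ≠ 0)).symm
  rw [h1]
  refine sum_le_L hfin fun z hz => ?_
  rw [Finset.mem_image] at hz
  obtain ⟨s, hs, rfl⟩ := hz
  rw [Set.Finite.mem_toFinset] at hs
  obtain ⟨h2, h3, h5, h6⟩ := hs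
  have h7 : s.re < 1 := by
    by_contra hcon
    exact riemannZeta_ne_zero_of_one_le_re (not_lt.1 hcon) h2
  refine ⟨refl_zero (by linarith) h2, ?_, ?_, ?_, ?_⟩
  · simp only [sub_re, one_re, conj_re]; linarith
  · simp only [sub_re, one_re, conj_re]; linarith
  · simpa using h5
  · simpa using h6

theorem triv_R : Triv wR := by
  obtain ⟨K, T0, hK, hT0, h⟩ := SP.window one_ne' SP.tame_zero (R := 1) (Y := 1) le_rfl one_pos
  rw [zeta_FF] at h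
  refine triv_of (K := K) (n0 := ⌈T0⌉₊) hK ?_ (c := Y751.DH.N (1 / 2) 0 (⌈T0⌉₊ + 1)) ?_
  · intro σ h1 h2 n hn
    have hn' : T0 ≤ n := (Nat.le_ceil _).trans (by exact_mod_cast hn)
    have hn0 : (0 : ℝ) ≤ n := Nat.cast_nonneg n
    unfold wR
    have hfin := Y751.DH.zs_finite σ n (n + 1)
    rw [Y751.DH.N_eq, DH31.cnt_eq hfin]
    push_cast
    have := h n (by rw [abs_of_nonneg hn0]; exact hn') (hfin.toFinset) (by
      intro s hs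
      rw [Set.Finite.mem_toFinset] at hs
      obtain ⟨h3, h4, h5, h6⟩ := hs
      have h7 : s.re < 1 := by
        by_contra hcon
        exact riemannZeta_ne_zero_of_one_le_re (not_lt.1 hcon) h3
      exact ⟨abs_le.2 ⟨by linarith, by linarith⟩, abs_le.2 ⟨by linarith, by linarith⟩⟩)
    rwa [abs_of_nonneg hn0] at this
  · intro σ h1 h2 n hn
    refine (Y751.DH.N_anti h1).trans (Y751.DH.N_mono (Nat.cast_nonneg n) ?_)
    have : (n : ℝ) ≤ ⌈T0⌉₊ := by exact_mod_cast hn.le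
    linarith

variable {P Q : ℂ[X]} {A B : ℂ → ℂ}

theorem wF_le_wR {σ : ℝ} (hσ : 1 / 2 ≤ σ) (n : ℕ) : wF (FF 1 (fun _ => 0)) σ n ≤ wR σ n := by
  unfold wF wR
  rw [zeta_FF]
  exact left_le_right hσ (Nat.cast_nonneg n)

theorem wR_le_wF {σ σ' : ℝ} (hσ : 1 / 2 ≤ σ') (h : σ' < σ) (n : ℕ) :
    wR σ n ≤ wF (FF 1 (fun _ => 0)) σ' n := by
  unfold wF wR
  rw [zeta_FF]
  exact right_le_left hσ h (Nat.cast_nonneg n)

theorem t1_FR (hP : P ≠ 0) (hA : Tame A) : T1 (wF (FF P A)) wR := by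
  intro δ hδ
  obtain ⟨W, hW⟩ := t1_F hP one_ne' hA SP.tame_zero δ hδ
  refine ⟨W, fun σ h1 h2 n hn hw => ?_⟩
  obtain ⟨m, h3, h4, h5⟩ := hW σ h1 h2 n hn hw
  exact ⟨m, h3, h4, h5.trans_le (wF_le_wR (by linarith) m)⟩

theorem t1_RF (hP : P ≠ 0) (hA : Tame A) : T1 wR (wF (FF P A)) := by
  intro δ hδ
  obtain ⟨W, hW⟩ := t1_F one_ne' hP SP.tame_zero hA (δ / 2) (by positivity)
  refine ⟨W, fun σ h1 h2 n hn hw => ?_⟩
  obtain ⟨m, h3, h4, h5⟩ := hW (σ - δ / 2) (by linarith) (by linarith) n hn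
    (hw.trans_le (wR_le_wF (by linarith) (by linarith) n))
  refine ⟨m, h3, h4, ?_⟩
  rwa [show σ - δ / 2 - δ / 2 = σ - δ by ring] at h5

theorem t2_FR (hP : P ≠ 0) (hA : Tame A) : T2 (wF (FF P A)) wR := by
  intro δ hδ η hη
  obtain ⟨η', hη', W, hW⟩ := t2_F hP one_ne' hA SP.tame_zero δ hδ η hη
  refine ⟨η', hη', W, fun σ h1 h2 n hn hw => ?_⟩
  obtain ⟨m, h3, h4, h5⟩ := hW σ h1 h2 n hn hw
  exact ⟨m, h3, h4, h5.trans (by exact_mod_cast wF_le_wR (by linarith) m)⟩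

theorem t2_RF (hP : P ≠ 0) (hA : Tame A) : T2 wR (wF (FF P A)) := by
  intro δ hδ η hη
  obtain ⟨η', hη', W, hW⟩ := t2_F one_ne' hP SP.tame_zero hA (δ / 2) (by positivity) η hη
  refine ⟨η', hη', W, fun σ h1 h2 n hn hw => ?_⟩
  obtain ⟨m, h3, h4, h5⟩ := hW (σ - δ / 2) (by linarith) (by linarith) n hn
    (hw.trans (by exact_mod_cast wR_le_wF (by linarith) (by linarith) n))
  refine ⟨m, h3, h4, ?_⟩
  rwa [show σ - δ / 2 - δ / 2 = σ - δ by ring] at h5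

/-- from counts up to `T` to window counts -/
theorem dens_iff {X : ℝ → ℝ → ℕ} {w : ℝ → ℕ → ℕ} {φ : ℝ → ℝ}
    (hc : ContinuousOn φ (Icc (1 / 2) 1)) (h0 : ∀ σ ∈ Icc (1 / 2 : ℝ) 1, 0 ≤ φ σ)
    (hX1 : ∀ σ, 1 / 2 ≤ σ → σ ≤ 1 → ∀ T T' : ℝ, T ≤ T' → X σ T ≤ X σ T')
    (hX2 : ∀ σ, 1 / 2 ≤ σ → σ ≤ 1 → ∀ m : ℕ, X σ m = ∑ n ∈ Finset.range m, w σ n) :
    (∀ ε : ℝ, 0 < ε → ∃ C : ℝ, 0 < C ∧ ∃ T₀ : ℝ, ∀ T : ℝ, T₀ ≤ T → ∀ σ : ℝ, 1 / 2 ≤ σ → σ ≤ 1 →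
      (X σ T : ℝ) ≤ C * T ^ (φ σ + ε)) ↔ Dens w φ := by
  constructor
  · intro h ε hε
    obtain ⟨C, hC, T₀, h1⟩ := h ε hε
    refine ⟨C, hC, max T₀ 0, fun T hT σ hσ1 hσ2 => ?_⟩
    rw [← hX2 σ hσ1 hσ2]
    refine le_trans ?_ (h1 T ((le_max_left _ _).trans hT) σ hσ1 hσ2)
    exact_mod_cast hX1 σ hσ1 hσ2 _ _ (Nat.floor_le ((le_max_right _ _).trans hT))
  · intro h ε0 hε0
    obtain ⟨ε, hε, hεε, hε1⟩ : ∃ ε : ℝ, 0 < ε ∧ 2 * ε ≤ ε0 ∧ ε ≤ 1 :=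
      ⟨min (ε0 / 2) 1, by positivity, by have := min_le_left (ε0 / 2) 1; linarith,
        min_le_right _ _⟩
    obtain ⟨M, hM0, hM⟩ := phi_bdd hc
    obtain ⟨C, hC, T₀, h1⟩ := h ε hε
    refine ⟨C * (2 : ℝ) ^ (M + 1), by positivity, max T₀ 1, fun T hT σ hσ1 hσ2 => ?_⟩
    have hT0 : T₀ ≤ T := (le_max_left _ _).trans hT
    have hT1 : 1 ≤ T := (le_max_right _ _).trans hT
    have h2 := h1 (T + 1) (by linarith) σ hσ1 hσ2
    rw [← hX2 σ hσ1 hσ2] at h2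
    have h3 : (X σ T : ℝ) ≤ X σ ((⌊T + 1⌋₊ : ℕ) : ℝ) := by
      rw [Nat.cast_le]
      refine hX1 σ hσ1 hσ2 _ _ ?_
      have := Nat.lt_floor_add_one T
      rw [Nat.floor_add_one (by linarith)]
      push_cast
      exact this.le
    refine (h3.trans h2).trans ?_
    have hm : σ ∈ Icc (1 / 2 : ℝ) 1 := ⟨hσ1, hσ2⟩
    have h4 := two_pow_le (φ := φ) (σ := σ) (σ' := σ) (e := ε) (M := M) (T := T) (X := T + 1)
      hT1 (hM σ hm) (by rw [sub_self, abs_zero]; exact hε) hε1 hε (by linarith) (by linarith)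
      (h0 σ hm)
    calc C * (T + 1) ^ (φ σ + ε) ≤ C * ((2 : ℝ) ^ (M + 1) * T ^ (φ σ + 2 * ε)) := by gcongr
      _ = C * (2 : ℝ) ^ (M + 1) * T ^ (φ σ + 2 * ε) := by ring
      _ ≤ _ := mul_le_mul_of_nonneg_left
            (Real.rpow_le_rpow_of_exponent_le (by linarith) (by linarith)) (by positivity)

theorem zd_iff {φ : ℝ → ℝ} (hc : ContinuousOn φ (Icc (1 / 2) 1))
    (h0 : ∀ σ ∈ Icc (1 / 2 : ℝ) 1, 0 ≤ φ σ) : Y751.DH.ZeroDensity φ ↔ Dens wR φ :=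
  dens_iff (X := fun σ T => Y751.DH.N σ 0 T) hc h0
    (fun σ _ _ T T' h => Y751.DH.N_mono le_rfl h) (fun σ _ _ m => Y751.DH.N_sum σ m)

theorem ld_iff (hP : P ≠ 0) (hA : Tame A) {φ : ℝ → ℝ} (hc : ContinuousOn φ (Icc (1 / 2) 1))
    (h0 : ∀ σ ∈ Icc (1 / 2 : ℝ) 1, 0 ≤ φ σ) :
    (∀ ε : ℝ, 0 < ε → ∃ C : ℝ, 0 < C ∧ ∃ T₀ : ℝ, ∀ T : ℝ, T₀ ≤ T → ∀ σ : ℝ, 1 / 2 ≤ σ → σ ≤ 1 →
      (L (FF P A) σ 0 T : ℝ) ≤ C * T ^ (φ σ + ε)) ↔ Dens (wF (FF P A)) φ :=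
  dens_iff (X := fun σ T => L (FF P A) σ 0 T) hc h0
    (fun σ h1 _ T T' h => L_mono hP hA h1 le_rfl le_rfl le_rfl h)
    (fun σ h1 _ m => L_sum hP hA h1 m)

/-- every exponent function: the zeros of zeta and the zeros of `F` to the left -/
theorem dens_equiv (hP : P ≠ 0) (hA : Tame A) {φ : ℝ → ℝ} (hc : ContinuousOn φ (Icc (1 / 2) 1))
    (h0 : ∀ σ ∈ Icc (1 / 2 : ℝ) 1, 0 ≤ φ σ) (hh : 1 ≤ φ (1 / 2)) :
    Y751.DH.ZeroDensity φ ↔ (∀ ε : ℝ, 0 < ε → ∃ C : ℝ, 0 < C ∧ ∃ T₀ : ℝ, ∀ T : ℝ, T₀ ≤ T →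
      ∀ σ : ℝ, 1 / 2 ≤ σ → σ ≤ 1 → (L (FF P A) σ 0 T : ℝ) ≤ C * T ^ (φ σ + ε)) := by
  rw [zd_iff hc h0, ld_iff hP hA hc h0]
  exact ⟨dens_of (triv_F hP hA) (t1_FR hP hA) hc h0 hh, dens_of triv_R (t1_RF hP hA) hc h0 hh⟩

theorem clus_equiv (hP : P ≠ 0) (hA : Tame A) {φ : ℝ → ℝ} (hc : ContinuousOn φ (Icc (1 / 2) 1))
    (hφ : AntitoneOn φ (Icc (1 / 2) 1)) (hlow : ∀ σ ∈ Icc (1 / 2 : ℝ) 1, 2 * (1 - σ) ≤ φ σ) :
    Y751.DH.ZeroDensity φ ↔ Clus (wF (FF P A)) φ := by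
  have h0 : ∀ σ ∈ Icc (1 / 2 : ℝ) 1, 0 ≤ φ σ := fun σ hσ => by
    have := hlow σ hσ
    have := hσ.2
    linarith
  have hh : 1 ≤ φ (1 / 2) := by
    have := hlow (1 / 2) ⟨le_rfl, by norm_num⟩
    linarith
  have h1 : Y751.DH.ZeroDensity φ ↔ Y751.DH.ClusterDensity φ :=
    (Y751.DH.tfae' hc hφ hlow).out 0 1
  rw [h1]
  exact ⟨fun h => clus_of (t2_FR hP hA) hc h0 hh h, fun h => clus_of (t2_RF hP hA) hc h0 hh h⟩

end Pool.Agent.Y853.DZ
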