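import Pool.Agent.Y853.DZ.Abs
import Pool.Agent.Y853.SP.Fin
import Pool.Agent.Y853.LC.Fin
import Pool.Agent.Y21.FW.Zeros

set_option autoImplicit false

/-!
# Zeros to the left of the line over unit windows
-/

open Complex Set Filter Topology Polynomial
open Pool.Agent.Y853.SP (FF Tame FF_an)

namespace Pool.Agent.Y853.DZ

def ls (F : ℂ → ℂ) (σ a b : ℝ) : Set ℂ :=
  {s | F s = 0 ∧ -1 < s.re ∧ s.re < 1 - σ ∧ a < s.im ∧ s.im ≤ b}

noncomputable def L (F : ℂ → ℂ) (σ a b : ℝ) : ℕ := ∑ᶠ s ∈ ls F σ a b, analyticOrderNatAt F s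

theorem L_eq {F : ℂ → ℂ} {σ a b : ℝ} (h : (ls F σ a b).Finite) :
    L F σ a b = ∑ s ∈ h.toFinset, analyticOrderNatAt F s :=
  finsum_mem_eq_finite_toFinset_sum _ h

theorem sum_le_L {F : ℂ → ℂ} {σ a b : ℝ} (h : (ls F σ a b).Finite) {S : Finset ℂ}
    (hS : ∀ s ∈ S, s ∈ ls F σ a b) : ∑ s ∈ S, analyticOrderNatAt F s ≤ L F σ a b := by
  rw [L_eq h]
  exact Finset.sum_le_sum_of_subset (by
    intro x hx
    rw [Set.Finite.mem_toFinset]
    exact hS x hx)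

variable {P Q : ℂ[X]} {A B : ℂ → ℂ}

theorem ls_fin (hP : P ≠ 0) (hA : Tame A) {σ a b : ℝ} (hσ : 1 / 2 ≤ σ) (ha : 0 ≤ a) :
    (ls (FF P A) σ a b).Finite := by
  refine (SP.Z_finite hP hA (-1) (b := 1 - σ) (by linarith) b).subset ?_
  rintro s ⟨h1, h2, h3, h4, h5⟩
  exact ⟨h1, h2, h3, by rw [abs_of_nonneg (by linarith)]; exact h5⟩

theorem L_mono (hP : P ≠ 0) (hA : Tame A) {σ σ' a b a' b' : ℝ} (hσ : 1 / 2 ≤ σ') (hσσ : σ' ≤ σ)
    (ha0 : 0 ≤ a') (ha : a' ≤ a) (hb : b ≤ b') : L (FF P A) σ a b ≤ L (FF P A) σ' a' b' := by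
  have h1 := ls_fin hP hA (σ := σ) (a := a) (b := b) (by linarith) (by linarith)
  rw [L_eq h1]
  refine sum_le_L (ls_fin hP hA hσ ha0) fun s hs => ?_
  rw [Set.Finite.mem_toFinset] at hs
  obtain ⟨h2, h3, h4, h5, h6⟩ := hs
  exact ⟨h2, h3, by linarith, by linarith, by linarith⟩

theorem L_add (hP : P ≠ 0) (hA : Tame A) {σ a b c : ℝ} (hσ : 1 / 2 ≤ σ) (ha : 0 ≤ a) (h : a ≤ b)
    (h' : b ≤ c) : L (FF P A) σ a c = L (FF P A) σ a b + L (FF P A) σ b c := by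
  classical
  rw [L_eq (ls_fin hP hA hσ ha), L_eq (ls_fin hP hA hσ ha),
    L_eq (ls_fin hP hA hσ (ha.trans h)), ← Finset.sum_union]
  · apply Finset.sum_congr _ fun _ _ => rfl
    ext s
    simp only [Finset.mem_union, Set.Finite.mem_toFinset, ls, mem_setOf_eq]
    constructor
    · rintro ⟨h1, h2, h3, h4, h6⟩
      rcases le_or_gt s.im b with h5 | h5
      · exact Or.inl ⟨h1, h2, h3, h4, h5⟩
      · exact Or.inr ⟨h1, h2, h3, h5, h6⟩
    · rintro (⟨h1, h2, h3, h4, h5⟩ | ⟨h1, h2, h3, h4, h5⟩)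
      · exact ⟨h1, h2, h3, h4, h5.trans h'⟩
      · exact ⟨h1, h2, h3, lt_of_le_of_lt h h4, h5⟩
  · rw [Finset.disjoint_left]
    intro s h1 h2
    rw [Set.Finite.mem_toFinset] at h1 h2
    have := h1.2.2.2.2
    have := h2.2.2.2.1
    linarith

theorem L_sum (hP : P ≠ 0) (hA : Tame A) {σ : ℝ} (hσ : 1 / 2 ≤ σ) (m : ℕ) :
    L (FF P A) σ 0 m = ∑ n ∈ Finset.range m, L (FF P A) σ n (n + 1) := by
  induction m with
  | zero =>
    have : ls (FF P A) σ 0 ((0 : ℕ) : ℝ) = ∅ := by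
      ext s
      simp only [ls, mem_setOf_eq, mem_empty_iff_false, iff_false, Nat.cast_zero]
      rintro ⟨_, _, _, h1, h2⟩
      linarith
    unfold L
    rw [this, Finset.range_zero, Finset.sum_empty]
    simp
  | succ m ih =>
    rw [Finset.sum_range_succ, ← ih]
    push_cast
    exact L_add hP hA hσ le_rfl (Nat.cast_nonneg m) (by linarith)

/-- trivial bound from the window bound -/
theorem triv_of {w : ℝ → ℕ → ℕ} {K : ℝ} {n0 : ℕ} (hK : 0 < K)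
    (h : ∀ σ : ℝ, 1 / 2 ≤ σ → σ ≤ 1 → ∀ n : ℕ, n0 ≤ n → (w σ n : ℝ) ≤ K * Real.log n)
    {c : ℕ} (hc : ∀ σ : ℝ, 1 / 2 ≤ σ → σ ≤ 1 → ∀ n : ℕ, n < n0 → w σ n ≤ c) : Triv w := by
  have hl2 : 0 < Real.log 2 := Real.log_pos (by norm_num)
  refine ⟨K + c / Real.log 2, by positivity, fun σ h1 h2 n => ?_⟩
  have h3 : Real.log 2 ≤ Real.log ((n : ℝ) + 2) :=
    Real.log_le_log (by norm_num) (by have : (0 : ℝ) ≤ n := Nat.cast_nonneg n; linarith)
  have h30 : 0 ≤ Real.log ((n : ℝ) + 2) := by linarith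
  rcases lt_or_ge n n0 with h4 | h4
  · have h5 : (w σ n : ℝ) ≤ c := by exact_mod_cast hc σ h1 h2 n h4
    have h6 : (c : ℝ) ≤ c / Real.log 2 * Real.log ((n : ℝ) + 2) := by
      rw [div_mul_eq_mul_div, le_div_iff₀ hl2]
      gcongr
    nlinarith
  · have h5 := h σ h1 h2 n h4
    have h6 : Real.log n ≤ Real.log ((n : ℝ) + 2) := by
      rcases Nat.eq_zero_or_pos n with h7 | h7
      · rw [h7]; simp
        exact hl2.le
      · exact Real.log_le_log (by exact_mod_cast h7) (by linarith)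
    have h8 : 0 ≤ c / Real.log 2 * Real.log ((n : ℝ) + 2) := by positivity
    nlinarith

/-- the window counts of `F` -/
noncomputable def wF (F : ℂ → ℂ) (σ : ℝ) (n : ℕ) : ℕ := L F σ n (n + 1)

theorem triv_F (hP : P ≠ 0) (hA : Tame A) : Triv (wF (FF P A)) := by
  obtain ⟨K, T0, hK, hT0, h⟩ := SP.window hP hA (R := 1) (Y := 1) le_rfl one_pos
  refine triv_of (K := K) (n0 := ⌈T0⌉₊) hK ?_ (c := L (FF P A) (1 / 2) 0 (⌈T0⌉₊ + 1)) ?_
  · intro σ h1 h2 n hn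
    have hn' : T0 ≤ n := (Nat.le_ceil _).trans (by exact_mod_cast hn)
    have hn0 : (0 : ℝ) ≤ n := Nat.cast_nonneg n
    unfold wF
    have hfin := ls_fin hP hA (σ := σ) (a := n) (b := n + 1) h1 hn0
    rw [L_eq hfin]
    push_cast
    have := h n (by rw [abs_of_nonneg hn0]; exact hn') (hfin.toFinset) (by
      intro s hs
      rw [Set.Finite.mem_toFinset] at hs
      obtain ⟨-, h3, h4, h5, h6⟩ := hs
      exact ⟨abs_le.2 ⟨h3.le, by linarith⟩, abs_le.2 ⟨by linarith, by linarith⟩⟩)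
    rwa [abs_of_nonneg hn0] at this
  · intro σ h1 h2 n hn
    refine L_mono hP hA le_rfl h1 le_rfl (Nat.cast_nonneg n) ?_
    have : (n : ℝ) ≤ ⌈T0⌉₊ := by exact_mod_cast hn.le
    linarith

theorem FF_left_ne (hP : P ≠ 0) (hA : Tame A) : ∃ c : ℂ, c.re < 1 ∧ FF P A c ≠ 0 := by
  obtain ⟨a', T1, -, hT1, -, h2⟩ := SP.sym_bounds hP hA (R := 1) le_rfl
  have h3 := h2 (-1 + T1 * I) (by simp [le_abs_self]) (by simp)
  refine ⟨-1 + T1 * I, by simp, fun h4 => ?_⟩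
  rw [h4, norm_zero] at h3
  linarith

theorem ord_pos (hP : P ≠ 0) (hA : Tame A) {s : ℂ} (hs : s.re < 1) (h0 : FF P A s = 0) :
    0 < analyticOrderNatAt (FF P A) s := by
  obtain ⟨c, hc, hc0⟩ := FF_left_ne hP hA
  have hU : IsPreconnected {s : ℂ | s.re < 1} := (convex_halfSpace_re_lt 1).isPreconnected
  refine (H370.Loc.mult_pos (f := FF P A) (K := {s : ℂ | s.re < 1}) hU ?_ (c := c) hc hc0 hs).2 h0
  intro s hs
  refine FF_an P hA ?_
  rintro rfl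
  have h : (1 : ℂ).re < 1 := hs
  rw [Complex.one_re] at h
  exact lt_irrefl _ h

theorem ceil_win {y : ℝ} (hy : 0 < y) : ((⌈y⌉₊ - 1 : ℕ) : ℝ) < y ∧ y ≤ ((⌈y⌉₊ - 1 : ℕ) : ℝ) + 1 := by
  have h5 : 1 ≤ ⌈y⌉₊ := Nat.one_le_iff_ne_zero.2 (by
    intro h; rw [Nat.ceil_eq_zero] at h; linarith)
  have h6 := Nat.ceil_lt_add_one hy.le
  have h7 := Nat.le_ceil y
  rw [Nat.cast_sub h5]
  push_cast
  constructor <;> linarith

theorem t1_F (hP : P ≠ 0) (hQ : Q ≠ 0) (hA : Tame A) (hB : Tame B) :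
    T1 (wF (FF P A)) (wF (FF Q B)) := by
  intro δ hδ
  obtain ⟨ε, hε, hεδ, hε1⟩ : ∃ ε : ℝ, 0 < ε ∧ ε < δ ∧ ε ≤ 1 :=
    ⟨min (δ / 2) 1, by positivity, by have := min_le_left (δ / 2) 1; linarith, min_le_right _ _⟩
  obtain ⟨Y, hY, hloc⟩ := SP.loc hP hQ hA hB 1 hε
  refine ⟨⌈Y⌉₊ + 2, fun σ h1 h2 n hn hw => ?_⟩
  have hYc := Nat.le_ceil Y
  have hn' : Y + 2 ≤ n := by
    have : ((⌈Y⌉₊ + 2 : ℕ) : ℝ) ≤ n := by exact_mod_cast hn
    push_cast at this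
    linarith
  have hn0 : (0 : ℝ) ≤ n := Nat.cast_nonneg n
  have hfin := ls_fin hP hA (σ := σ) (a := n) (b := n + 1) (by linarith) hn0
  have hne : ∃ s, s ∈ ls (FF P A) σ n (n + 1) := by
    by_contra hcon
    push Not at hcon
    have : ls (FF P A) σ n (n + 1) = ∅ := Set.eq_empty_of_forall_notMem hcon
    unfold wF L at hw
    rw [this] at hw
    simp at hw
  obtain ⟨ρ, h3, h4, h5, h6, h7⟩ := hne
  obtain ⟨-, ρ', k1, k2, k3, k4⟩ := hloc ρ h3 h4.le (by linarith) (by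
    rw [abs_of_nonneg (by linarith)]; linarith)
  have k4' := abs_le.1 k4
  obtain ⟨m1, m2⟩ := ceil_win (y := ρ'.im) (by linarith)
  set m : ℕ := ⌈ρ'.im⌉₊ - 1 with hm
  refine ⟨m, ?_, ?_, ?_⟩
  · have : (n : ℝ) ≤ ((m + (⌈Y⌉₊ + 2) : ℕ) : ℝ) := by push_cast; linarith
    exact_mod_cast this
  · have : (m : ℝ) ≤ ((n + (⌈Y⌉₊ + 2) : ℕ) : ℝ) := by push_cast; linarith
    exact_mod_cast this
  · have h8 := sum_le_L (ls_fin hQ hB (σ := σ - δ) (a := m) (b := m + 1) (by linarith)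
      (Nat.cast_nonneg m)) (S := {ρ'}) (by
        intro s hs
        rw [Finset.mem_singleton] at hs
        rw [hs]
        exact ⟨k1, by linarith, by linarith, m1, m2⟩)
    rw [Finset.sum_singleton] at h8
    exact lt_of_lt_of_le (ord_pos hQ hB (by linarith) k1) h8

/-- pigeonhole over unit windows -/
theorem pigeon (hQ : Q ≠ 0) (hB : Tame B) {σ : ℝ} (hσ : 1 / 2 ≤ σ) {n W : ℕ} (hn : W + 1 ≤ n)
    {S : Finset ℂ} (hS : ∀ s ∈ S, FF Q B s = 0 ∧ -1 < s.re ∧ s.re < 1 - σ ∧ |s.im - n| ≤ W)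
    {x : ℝ} (hx : (2 * W + 2) * x < ∑ s ∈ S, (analyticOrderNatAt (FF Q B) s : ℝ)) :
    ∃ m : ℕ, n ≤ m + (W + 1) ∧ m ≤ n + (W + 1) ∧ x ≤ wF (FF Q B) σ m := by
  classical
  by_contra hcon
  push Not at hcon
  have hn' : (W : ℝ) + 1 ≤ n := by exact_mod_cast hn
  set U := Finset.Ico (n - (W + 1)) (n + (W + 1)) with hU
  have hmap : ∀ s ∈ S, ⌈s.im⌉₊ - 1 ∈ U := by
    intro s hs
    obtain ⟨-, -, -, h4⟩ := hS s hs
    have h4' := abs_le.1 h4
    obtain ⟨m1, m2⟩ := ceil_win (y := s.im) (by linarith)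
    rw [hU, Finset.mem_Ico]
    set m : ℕ := ⌈s.im⌉₊ - 1 with hm
    constructor
    · have : (n : ℝ) ≤ ((m + (W + 1) : ℕ) : ℝ) := by push_cast; linarith
      have : n ≤ m + (W + 1) := by exact_mod_cast this
      omega
    · have : (m : ℝ) < ((n + (W + 1) : ℕ) : ℝ) := by push_cast; linarith
      exact_mod_cast this
  have h1 : ∑ s ∈ S, (analyticOrderNatAt (FF Q B) s : ℝ) ≤ (2 * W + 2) * x := by
    rw [← Finset.sum_fiberwise_of_maps_to (t := U) (g := fun s : ℂ => ⌈s.im⌉₊ - 1) hmap]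
    have hcU : (U.card : ℝ) = 2 * W + 2 := by
      rw [hU, Nat.card_Ico]
      have : n + (W + 1) - (n - (W + 1)) = 2 * W + 2 := by omega
      rw [this]
      push_cast
      ring
    rw [← hcU, ← nsmul_eq_mul]
    refine Finset.sum_le_card_nsmul _ _ _ fun m hm => ?_
    rw [hU, Finset.mem_Ico] at hm
    have h2 := sum_le_L (ls_fin hQ hB (σ := σ) (a := m) (b := m + 1) hσ (Nat.cast_nonneg m))
      (S := S.filter (fun s : ℂ => ⌈s.im⌉₊ - 1 = m)) (by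
        intro s hs
        rw [Finset.mem_filter] at hs
        obtain ⟨g1, g2, g3, g4⟩ := hS s hs.1
        have h4' := abs_le.1 g4
        obtain ⟨m1, m2⟩ := ceil_win (y := s.im) (by linarith)
        rw [hs.2] at m1 m2
        exact ⟨g1, g2, g3, m1, m2⟩)
    have h3 := hcon m (by omega) (by omega)
    unfold wF at h3
    have h4 : (∑ s ∈ S with ⌈s.im⌉₊ - 1 = m, (analyticOrderNatAt (FF Q B) s : ℝ)) ≤
        (L (FF Q B) σ m (m + 1) : ℝ) := by exact_mod_cast h2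
    linarith
  linarith

theorem t2_F (hP : P ≠ 0) (hQ : Q ≠ 0) (hA : Tame A) (hB : Tame B) :
    T2 (wF (FF P A)) (wF (FF Q B)) := by
  intro δ hδ η hη
  obtain ⟨ε, hε, hεδ, hεη⟩ : ∃ ε : ℝ, 0 < ε ∧ ε ≤ δ ∧ ε < η :=
    ⟨min δ (η / 2), by positivity, min_le_left _ _, by
      have := min_le_right δ (η / 2); linarith⟩
  obtain ⟨η2, W, T0, hη2, hW, hT0, hcmp⟩ := LC.cmp hP hQ hA hB hε
  set W' : ℕ := ⌈W⌉₊ with hW'
  have hWW : W ≤ W' := Nat.le_ceil _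
  refine ⟨η2 / (2 * W' + 3), by positivity, W' + 2 + ⌈T0⌉₊, fun σ h1 h2 n hn hw => ?_⟩
  have hn1 : T0 ≤ n := by
    have h3 : ((⌈T0⌉₊ : ℕ) : ℝ) ≤ n := by exact_mod_cast (by omega : ⌈T0⌉₊ ≤ n)
    exact (Nat.le_ceil _).trans h3
  have hn0 : (0 : ℝ) ≤ n := Nat.cast_nonneg n
  have hln : 0 < Real.log n := Real.log_pos (by linarith)
  have hnot : ¬ LC.Few (FF Q B) (σ - δ) η2 n W := by
    intro hf
    have h3 := hcmp (σ - δ) n (by linarith) (by linarith) hn1 hf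
    have hfin := ls_fin hP hA (σ := σ) (a := n) (b := n + 1) (by linarith) hn0
    have h4 := h3 hfin.toFinset (by
      intro s hs
      rw [Set.Finite.mem_toFinset] at hs
      obtain ⟨g1, g2, g3, g4, g5⟩ := hs
      exact ⟨g1, g2, by linarith, abs_le.2 ⟨by linarith, by linarith⟩⟩)
    have h5 : (wF (FF P A) σ n : ℝ) = ∑ s ∈ hfin.toFinset, (analyticOrderNatAt (FF P A) s : ℝ) := by
      unfold wF
      rw [L_eq hfin]
      push_cast
      rfl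
    rw [h5] at hw
    nlinarith
  unfold LC.Few at hnot
  push Not at hnot
  obtain ⟨S, hS1, hS2⟩ := hnot
  obtain ⟨m, hm1, hm2, hm3⟩ := pigeon hQ hB (σ := σ - δ) (by linarith) (n := n) (W := W')
    (by omega) (S := S) (by
      intro s hs
      obtain ⟨g1, g2, g3, g4⟩ := hS1 s hs
      exact ⟨g1, g2, by linarith, g4.trans hWW⟩)
    (x := η2 / (2 * W' + 3) * Real.log n) (by
      refine lt_of_lt_of_le ?_ hS2.le
      have h3 : (0 : ℝ) < 2 * W' + 3 := by positivity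
      have h4 : (2 * (W' : ℝ) + 2) * (η2 / (2 * W' + 3) * Real.log n) =
          (η2 * Real.log n) * ((2 * W' + 2) / (2 * W' + 3)) := by
        field_simp
      rw [h4]
      have h5 : (2 * (W' : ℝ) + 2) / (2 * W' + 3) < 1 := by
        rw [div_lt_one h3]; linarith
      have h6 : 0 < η2 * Real.log n := by positivity
      nlinarith)
  exact ⟨m, by omega, by omega, hm3⟩

end Pool.Agent.Y853.DZ
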